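import Pool.Agent.W965.LU.Stms

/-! END: end-homogeneous subsets. -/

namespace Pool.Agent.W333.LU.END

open Pool.Agent.W965.LU

theorem gen (s : ℕ) (col : Finset ℕ → Prop) : ∀ (k : ℕ) (P A : Finset ℕ),
    (∀ p ∈ P, ∀ a ∈ A, p < a) →
    (∀ T ⊆ P, T.card = s + 2 → ∀ a ∈ A, ∀ a' ∈ A, (col (insert a T) ↔ col (insert a' T))) →
    2 ^ (k * (1 + (P.card + k) ^ (s + 1))) ≤ A.card →
    ∃ X ⊆ A, X.card = k ∧ ∀ T ⊆ P ∪ X, T.card = s + 2 → ∀ l ∈ X, ∀ l' ∈ X,
      (∀ t ∈ T, t < l) → (∀ t ∈ T, t < l') → (col (insert l T) ↔ col (insert l' T)) := by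
  classical
  intro k
  induction k with
  | zero =>
    intro P A _ _ _
    refine ⟨∅, Finset.empty_subset _, rfl, ?_⟩
    intro T _ _ l hl
    exact absurd hl (Finset.notMem_empty _)
  | succ k ih =>
    intro P A hPA hcol hcard
    have hApos : 0 < A.card := lt_of_lt_of_le (by positivity) hcard
    have hne : A.Nonempty := Finset.card_pos.mp hApos
    obtain ⟨x0, hx0A, hx0min⟩ : ∃ x0 ∈ A, ∀ a ∈ A, x0 ≤ a :=
      ⟨A.min' hne, A.min'_mem hne, fun a ha => A.min'_le a ha⟩
    set A1 := A.erase x0 with hA1
    have hA1lt : ∀ a ∈ A1, x0 < a := by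
      intro a ha
      have h1 := Finset.mem_erase.mp ha
      exact lt_of_le_of_ne (hx0min a h1.2) (Ne.symm h1.1)
    have hx0P : x0 ∉ P := fun h => lt_irrefl _ (hPA x0 h x0 hx0A)
    let f : ℕ → Finset (Finset ℕ) := fun a =>
      (Finset.powersetCard (s + 1) P).filter (fun T => col (insert a (insert x0 T)))
    have hf : ∀ a ∈ A1, f a ∈ (Finset.powersetCard (s + 1) P).powerset := by
      intro a _
      exact Finset.mem_powerset.mpr (Finset.filter_subset _ _)
    have hnum : (Finset.powersetCard (s + 1) P).powerset.card *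
        2 ^ (k * (1 + ((P.card + 1) + k) ^ (s + 1))) ≤ A1.card := by
      rw [Finset.card_powerset, Finset.card_powersetCard, ← pow_add, hA1,
        Finset.card_erase_of_mem hx0A]
      have h1 : P.card.choose (s + 1) ≤ (P.card + 1 + k) ^ (s + 1) :=
        (Nat.choose_le_pow _ _).trans (Nat.pow_le_pow_left (by omega) _)
      have h2 : P.card.choose (s + 1) + k * (1 + ((P.card + 1) + k) ^ (s + 1)) + 1 ≤
          (k + 1) * (1 + (P.card + (k + 1)) ^ (s + 1)) := by
        have h3 : P.card + (k + 1) = P.card + 1 + k := by ring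
        rw [h3]
        nlinarith [h1]
      have h4 := (Nat.pow_le_pow_right (n := 2) (by norm_num) h2).trans hcard
      rw [pow_succ] at h4
      have h5 : 0 < 2 ^ (P.card.choose (s + 1) + k * (1 + ((P.card + 1) + k) ^ (s + 1))) := by
        positivity
      omega
    obtain ⟨y, _, hy⟩ := Finset.exists_le_card_fiber_of_mul_le_card_of_maps_to hf
      ⟨∅, Finset.mem_powerset.mpr (Finset.empty_subset _)⟩ hnum
    set A' := A1.filter (fun x => f x = y) with hA'
    have hA'A1 : ∀ a ∈ A', a ∈ A1 := fun a ha => (Finset.mem_filter.mp ha).1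
    have hA'A : ∀ a ∈ A', a ∈ A := fun a ha => Finset.mem_of_mem_erase (hA'A1 a ha)
    have hA'f : ∀ a ∈ A', f a = y := fun a ha => (Finset.mem_filter.mp ha).2
    have hP'card : (insert x0 P).card = P.card + 1 := Finset.card_insert_of_notMem hx0P
    obtain ⟨X', hX'sub, hX'card, hX'⟩ := ih (insert x0 P) A' (by
      intro p hp a ha
      rcases Finset.mem_insert.mp hp with rfl | hp
      · exact hA1lt a (hA'A1 a ha)
      · exact hPA p hp a (hA'A a ha)) (by
      intro T hT hTc a ha a' ha'
      by_cases hx : x0 ∈ T
      · have hTe : T.erase x0 ⊆ P := by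
          intro t ht
          have h1 := Finset.mem_erase.mp ht
          rcases Finset.mem_insert.mp (hT h1.2) with h | h
          · exact absurd h h1.1
          · exact h
        have hTec : (T.erase x0).card = s + 1 := by
          rw [Finset.card_erase_of_mem hx, hTc]; rfl
        have hmem : T.erase x0 ∈ Finset.powersetCard (s + 1) P :=
          Finset.mem_powersetCard.mpr ⟨hTe, hTec⟩
        have hTi : insert x0 (T.erase x0) = T := Finset.insert_erase hx
        have e1 : T.erase x0 ∈ f a ↔ col (insert a T) := by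
          show T.erase x0 ∈ (Finset.powersetCard (s + 1) P).filter _ ↔ _
          rw [Finset.mem_filter, hTi]
          exact ⟨fun h => h.2, fun h => ⟨hmem, h⟩⟩
        have e2 : T.erase x0 ∈ f a' ↔ col (insert a' T) := by
          show T.erase x0 ∈ (Finset.powersetCard (s + 1) P).filter _ ↔ _
          rw [Finset.mem_filter, hTi]
          exact ⟨fun h => h.2, fun h => ⟨hmem, h⟩⟩
        rw [← e1, ← e2, hA'f a ha, hA'f a' ha']
      · have hTP : T ⊆ P := by
          intro t ht
          rcases Finset.mem_insert.mp (hT ht) with h | h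
          · exact absurd (h ▸ ht) hx
          · exact h
        exact hcol T hTP hTc a (hA'A a ha) a' (hA'A a' ha')) (by
      rw [hP'card]; exact hy)
    have hX'A : ∀ a ∈ X', a ∈ A := fun a ha => hA'A a (hX'sub ha)
    have hx0X' : x0 ∉ X' := fun h => lt_irrefl _ (hA1lt x0 (hA'A1 x0 (hX'sub h)))
    refine ⟨insert x0 X', ?_, ?_, ?_⟩
    · intro a ha
      rcases Finset.mem_insert.mp ha with rfl | ha
      · exact hx0A
      · exact hX'A a ha
    · rw [Finset.card_insert_of_notMem hx0X', hX'card]
    · intro T hT hTc l hl l' hl' htl htl'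
      have hT' : T ⊆ insert x0 P ∪ X' := by
        intro t ht
        have h1 := hT ht
        simp only [Finset.mem_union, Finset.mem_insert] at h1 ⊢
        tauto
      have key : x0 ∈ ({l, l'} : Finset ℕ) → T ⊆ P := by
        intro hx t ht
        have htx : t < x0 := by
          simp only [Finset.mem_insert, Finset.mem_singleton] at hx
          rcases hx with h | h
          · rw [h]; exact htl t ht
          · rw [h]; exact htl' t ht
        have h1 := hT ht
        simp only [Finset.mem_union, Finset.mem_insert] at h1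
        rcases h1 with h | h | h
        · exact h
        · exact absurd htx (by rw [h]; exact lt_irrefl _)
        · exact absurd (hx0min t (hX'A t h)) (not_le.mpr htx)
      have hlA : l ∈ A := by
        rcases Finset.mem_insert.mp hl with rfl | h
        · exact hx0A
        · exact hX'A l h
      have hl'A : l' ∈ A := by
        rcases Finset.mem_insert.mp hl' with rfl | h
        · exact hx0A
        · exact hX'A l' h
      rcases Finset.mem_insert.mp hl with h | h
      · exact hcol T (key (by rw [h]; simp)) hTc l hlA l' hl'A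
      · rcases Finset.mem_insert.mp hl' with h' | h'
        · exact hcol T (key (by rw [h']; simp)) hTc l hlA l' hl'A
        · exact hX' T hT' hTc l h l' h' htl htl'

theorem main : S_END := by
  intro s col W k hW
  obtain ⟨X, hXW, hXc, hX⟩ := gen s col k ∅ W (by intro p hp; exact absurd hp (Finset.notMem_empty _))
    (by
      intro T hT hTc
      have h1 : T = ∅ := Finset.subset_empty.mp hT
      rw [h1] at hTc
      simp at hTc)
    (by simpa using hW)
  refine ⟨X, hXW, hXc, ?_⟩
  intro T hT hTc l hl l' hl' h1 h2
  exact hX T (by simpa using hT) hTc l hl l' hl' h1 h2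

end Pool.Agent.W333.LU.END
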